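import Pool.Agent.Helper71.BM.Basic

/-!
# Transversals of pairwise intersecting long cycles: module DICH
-/

set_option autoImplicit false

namespace Pool.Agent.Helper71.BM

open Finset ErdPos

/-- the interior of a path -/
def dichInt {V : Type} (l : List V) : List V := l.tail.dropLast

lemma dich_int_sublist {V : Type} (l : List V) : (dichInt l).Sublist l :=
  (List.dropLast_sublist _).trans (List.tail_sublist _)

lemma dich_int_eq {V : Type} (a b : V) (l : List V) : dichInt (a :: l ++ [b]) = l := by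
  simp [dichInt]

/-- the interiors of disjoint paths are disjoint -/
lemma dich_flatten {V : Type} {P : List (List V)} (h : P.flatten.Nodup) :
    (P.map dichInt).flatten.Nodup := by
  rw [List.nodup_flatten] at h ⊢
  refine ⟨?_, ?_⟩
  · intro l hl
    obtain ⟨m, hm, rfl⟩ := List.mem_map.1 hl
    exact (h.1 m hm).sublist (dich_int_sublist m)
  · rw [List.pairwise_map]
    refine h.2.imp ?_
    intro l l' hd v hv hv'
    exact hd ((dich_int_sublist l).subset hv) ((dich_int_sublist l').subset hv')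

/-- existence of minimal rows -/
lemma dich_minR {V : Type} (G : SimpleGraph V) (K A B : Finset V) (Q : List (List V)) (n : ℕ)
    (h : ∃ P, Sys G K A B P ∧ P.length = n) : ∃ P, MinR G K A B Q P ∧ P.length = n := by
  classical
  have h1 : ∃ s, ∃ P, Sys G K A B P ∧ P.length = n ∧ (P.map (outc Q)).sum = s := by
    obtain ⟨P, hP, hn⟩ := h
    exact ⟨_, P, hP, hn, rfl⟩
  obtain ⟨P, hP, hn, hs⟩ := Nat.find_spec h1
  refine ⟨P, ⟨hP, ?_⟩, hn⟩
  intro P' hP' hl
  rw [hs]
  exact Nat.find_min' h1 ⟨P', hP', hl.trans hn, rfl⟩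

/-- shorter linkages -/
lemma dich_take {V : Type} {G : SimpleGraph V} {K A B : Finset V} {n m : ℕ} (hmn : m ≤ n)
    (h : ∃ P, Sys G K A B P ∧ P.length = n) : ∃ P, Sys G K A B P ∧ P.length = m := by
  obtain ⟨P, hP, hn⟩ := h
  refine ⟨P.take m, hP.of_subset (hP.nodup.sublist (List.take_sublist _ _))
    (fun l hl => List.mem_of_mem_take hl), ?_⟩
  rw [List.length_take, hn]
  exact min_eq_left hmn

/-- the rows disjoint from the path -/
lemma dich_miss {V : Type} [DecidableEq V] {G : SimpleGraph V} {K A B : Finset V}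
    {P : List (List V)} (hP : Sys G K A B P) (a b : V) (c : List V) (n : ℕ)
    (h : n + 2 ≤ {r | r ∈ P ∧ List.Disjoint c r}.ncard) :
    ∃ P' : List (List V), P'.Nodup ∧ (∀ r ∈ P', r ∈ P ∧ List.Disjoint (a :: c ++ [b]) r) ∧
      P'.length = n := by
  classical
  have hfin : {r | r ∈ P}.Finite := List.finite_toSet P
  have h1 : ∀ x : V, {r | r ∈ P ∧ x ∈ r}.ncard ≤ 1 := by
    intro x
    rw [Set.ncard_le_one (hfin.subset (fun r hr => hr.1))]
    intro r hr r' hr'
    exact eq_of_mem_flatten hP.1 hr.1 hr'.1 hr.2 hr'.2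
  have hsub : {r | r ∈ P ∧ List.Disjoint c r} ⊆
      {r | r ∈ P ∧ List.Disjoint (a :: c ++ [b]) r} ∪
        ({r | r ∈ P ∧ a ∈ r} ∪ {r | r ∈ P ∧ b ∈ r}) := by
    rintro r ⟨hr, hd⟩
    by_cases ha : a ∈ r
    · exact Or.inr (Or.inl ⟨hr, ha⟩)
    by_cases hb : b ∈ r
    · exact Or.inr (Or.inr ⟨hr, hb⟩)
    refine Or.inl ⟨hr, ?_⟩
    intro v hv hv'
    simp at hv
    rcases hv with rfl | hv | rfl
    · exact ha hv'
    · exact hd hv hv'
    · exact hb hv'
  have hfin2 : ({r | r ∈ P ∧ List.Disjoint (a :: c ++ [b]) r} ∪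
        ({r | r ∈ P ∧ a ∈ r} ∪ {r | r ∈ P ∧ b ∈ r})).Finite := by
    refine hfin.subset ?_
    rintro r (h | h | h)
    · exact h.1
    · exact h.1
    · exact h.1
  have h2 := Set.ncard_le_ncard hsub hfin2
  have h3 := Set.ncard_union_le {r | r ∈ P ∧ List.Disjoint (a :: c ++ [b]) r}
    ({r | r ∈ P ∧ a ∈ r} ∪ {r | r ∈ P ∧ b ∈ r})
  have h4 := Set.ncard_union_le {r | r ∈ P ∧ a ∈ r} {r | r ∈ P ∧ b ∈ r}
  have h5 := h1 a
  have h6 := h1 b
  have h7 : n ≤ {r | r ∈ P ∧ List.Disjoint (a :: c ++ [b]) r}.ncard := by omega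
  have hfin3 : {r | r ∈ P ∧ List.Disjoint (a :: c ++ [b]) r}.Finite :=
    hfin.subset (fun r hr => hr.1)
  rw [Set.ncard_eq_toFinset_card _ hfin3] at h7
  obtain ⟨T, hT, hTn⟩ := Finset.exists_subset_card_eq h7
  refine ⟨T.toList, T.nodup_toList, ?_, by rw [Finset.length_toList, hTn]⟩
  intro r hr
  have := hT (Finset.mem_toList.1 hr)
  rw [Set.Finite.mem_toFinset] at this
  exact this

/-- the statement for a list of pairs -/
def dichP (p h d : ℕ) (L : List (ℕ × ℕ)) (n : ℕ) : Prop :=
  ∀ (V : Type) [Fintype V] [DecidableEq V] (G : SimpleGraph V)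
    (C : Finset V) (X : ℕ → Finset V), 1 ≤ d → (∀ i < p, Disjoint (X i) C) →
    (∀ i < p, ∀ j < p, i ≠ j → Disjoint (X i) (X j)) →
    (∀ i < p, ∀ j < p, ∀ u ∈ X i, ∀ v ∈ X j, ¬ G.Adj u v) →
    (∀ e ∈ L, ∃ P, Sys G (C ∪ X e.1 ∪ X e.2) (X e.1) (X e.2) P ∧ P.length = n) →
    (∃ P : ℕ × ℕ → List V,
      (∀ e ∈ L, ∃ a ∈ X e.1, ∃ b ∈ X e.2, PL G a b (P e) ∧
        ∀ v ∈ P e, v = a ∨ v = b ∨ v ∈ C) ∧
      ∀ e ∈ L, ∀ e' ∈ L, e ≠ e' → List.Disjoint (P e) (P e')) ∨
    (∃ i < p, ∃ R U, Web G h d R U ∧ ∀ a < h, ∃ x ∈ row R d a, x ∈ X i)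

/-- the pigeonhole principle for columns -/
lemma dich_pigeon {α β : Type} [DecidableEq β] (L : List β) (m : ℕ) (P : List α)
    (bad : α → β → Prop) (hlen : m * L.length < P.length)
    (h : ∀ v ∈ P, ∃ e ∈ L, bad v e) :
    ∃ e ∈ L, ∃ P' : List α, P'.Sublist P ∧ m ≤ P'.length ∧ ∀ v ∈ P', bad v e := by
  classical
  by_contra hcon
  push Not at hcon
  have key : ∀ (L' : List β) (P' : List α), P'.Sublist P → (∀ e ∈ L', e ∈ L) →
      (∀ v ∈ P', ∃ e ∈ L', bad v e) → P'.length ≤ m * L'.length := by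
    intro L'
    induction L' with
    | nil =>
      intro P' _ _ hb
      cases P' with
      | nil => simp
      | cons v P' =>
        obtain ⟨e, he, _⟩ := hb v (by simp)
        simp at he
    | cons e L' ih =>
      intro P' hs hL hb
      have h1 := ih (P'.filter (fun v => decide (¬ bad v e)))
        (List.filter_sublist.trans hs) (fun e' he' => hL e' (by simp [he'])) (by
          intro v hv
          rw [List.mem_filter] at hv
          obtain ⟨e', he', hbe⟩ := hb v hv.1
          rcases List.mem_cons.1 he' with rfl | he'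
          · exact absurd hbe (by simpa using hv.2)
          · exact ⟨e', he', hbe⟩)
      have h2 : (P'.filter (fun v => decide (bad v e))).length < m := by
        by_contra h3
        push Not at h3
        obtain ⟨v, hv, hv'⟩ := hcon e (hL e (by simp)) (P'.filter (fun v => decide (bad v e)))
          (List.filter_sublist.trans hs) h3
        rw [List.mem_filter] at hv
        exact hv' (by simpa using hv.2)
      have h3 : P'.length = (P'.filter (fun v => decide (bad v e))).length +
          (P'.filter (fun v => decide (¬ bad v e))).length := by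
        have := List.length_eq_length_filter_add (l := P') (fun v => decide (bad v e))
        rw [this]
        congr 2
        apply List.filter_congr
        intro v _
        by_cases hh : bad v e <;> simp [hh]
      rw [List.length_cons, Nat.mul_succ]
      omega
  have := key L P (List.Sublist.refl _) (fun e he => he) h
  omega

/-- the inductive step -/
lemma dich_step (hW : ST_WEBX) (p h d l N n' : ℕ) (h2 : 2 * (N + 2) ≤ n')
    (h3 : h + d * (N + 2) + 1 ≤ n') (e : ℕ × ℕ) (L : List (ℕ × ℕ)) (hl : L.length = l)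
    (heL : e ∉ L) (hL : ∀ e' ∈ e :: L, e'.1 < e'.2 ∧ e'.2 < p) (ih : dichP p h d L N) :
    dichP p h d (e :: L) (4 * d * n' * l + n' + 1) := by
  classical
  intro V _ _ G C X hd hXC hXX hadj hlink
  obtain ⟨Pe, hPe, hPl⟩ := hlink e (by simp)
  have he := hL e (by simp)
  have he1 : e.1 < p := he.1.trans he.2
  have hdis : Disjoint (X e.1) (X e.2) := hXX _ he1 _ he.2 he.1.ne
  -- the structure of the paths of e
  have hstr : ∀ c ∈ Pe, ∃ a ∈ X e.1, ∃ b ∈ X e.2, ∃ m, c = a :: m ++ [b] ∧ m ≠ [] ∧
      PL G a b c ∧ ∀ v ∈ m, v ∈ C := by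
    intro c hc
    obtain ⟨hK, a, ha, b, hb, hpl, hA, hB⟩ := hPe.2 c hc
    have hab : a ≠ b := by
      rintro rfl
      exact Finset.disjoint_left.1 hdis ha hb
    obtain ⟨m, rfl⟩ := hpl.eq_both hab
    refine ⟨a, ha, b, hb, m, rfl, ?_, hpl, ?_⟩
    · rintro rfl
      have := hpl.2.2.2
      simp at this
      exact hadj _ he1 _ he.2 a ha b hb this
    · intro v hv
      have hnd := hpl.2.2.1
      have h4 := hK v (by simp [hv])
      rw [Finset.mem_union, Finset.mem_union] at h4
      rcases h4 with (h4 | h4) | h4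
      · exact h4
      · have h5 := hA v (by simp [hv]) h4
        subst h5
        simp [hv] at hnd
      · have h5 := hB v (by simp [hv]) h4
        subst h5
        rw [List.nodup_append] at hnd
        exact absurd rfl (hnd.2.2 v (by simp [hv]) v (by simp))
  have hQ : ∀ K : Finset V, C ⊆ K → Cols G K (Pe.map dichInt) := by
    intro K hK
    refine ⟨dich_flatten hPe.1, ?_⟩
    intro c hc
    obtain ⟨c0, hc0, rfl⟩ := List.mem_map.1 hc
    obtain ⟨a, ha, b, hb, m, hm, hne, hpl, hC⟩ := hstr c0 hc0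
    subst hm
    rw [dich_int_eq]
    refine ⟨hne, ?_, fun v hv => hK (hC v hv)⟩
    have h4 : (a :: (m ++ [b])).IsChain G.Adj := by simpa using hpl.2.2.2
    have h5 : ([a] ++ (m ++ [b])).IsChain G.Adj := h4
    exact h5.right_of_append.left_of_append
  have hrows : ∀ e' ∈ L, ∃ P, MinR G (C ∪ X e'.1 ∪ X e'.2) (X e'.1) (X e'.2) (Pe.map dichInt) P ∧
      P.length = n' := by
    intro e' he'
    apply dich_minR
    exact dich_take (by omega) (hlink e' (by simp [he']))
  choose! Rw hRw using hrows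
  by_cases hcase : ∃ c ∈ Pe, ∀ e' ∈ L,
      N + 2 ≤ {r | r ∈ Rw e' ∧ List.Disjoint (dichInt c) r}.ncard
  · obtain ⟨c, hc, hmiss⟩ := hcase
    obtain ⟨a, ha, b, hb, m, hm, hne, hpl, hC⟩ := hstr c hc
    have hres := ih V G (C \ c.toFinset) (fun i => X i \ c.toFinset) hd
      (fun i hi => Finset.disjoint_of_subset_left Finset.sdiff_subset
        (Finset.disjoint_of_subset_right Finset.sdiff_subset (hXC i hi)))
      (fun i hi j hj hij => Finset.disjoint_of_subset_left Finset.sdiff_subset
        (Finset.disjoint_of_subset_right Finset.sdiff_subset (hXX i hi j hj hij)))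
      (fun i hi j hj u hu v hv => hadj i hi j hj u (Finset.sdiff_subset hu) v
        (Finset.sdiff_subset hv))
      (by
        intro e' he'
        have hR := hRw e' he'
        have hmi := hmiss e' he'
        subst hm
        rw [dich_int_eq] at hmi
        obtain ⟨P', hP'n, hP', hP'l⟩ := dich_miss hR.1.1 a b m N hmi
        refine ⟨P', ?_, hP'l⟩
        have hs := hR.1.1.of_subset hP'n (fun r hr => (hP' r hr).1)
        refine ⟨hs.1, ?_⟩
        intro r hr
        obtain ⟨hK, a', ha', b', hb', hpl', hA', hB'⟩ := hs.2 r hr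
        have hdj : ∀ v ∈ r, v ∉ (a :: m ++ [b]).toFinset := by
          intro v hv hv'
          rw [List.mem_toFinset] at hv'
          exact (hP' r hr).2 hv' hv
        refine ⟨?_, a', Finset.mem_sdiff.2 ⟨ha', hdj a' hpl'.head_mem⟩, b',
          Finset.mem_sdiff.2 ⟨hb', hdj b' hpl'.last_mem⟩, hpl', ?_, ?_⟩
        · intro v hv
          have h4 := hK v hv
          have h5 := hdj v hv
          rw [Finset.mem_union, Finset.mem_union] at h4 ⊢
          rcases h4 with (h4 | h4) | h4
          · exact Or.inl (Or.inl (Finset.mem_sdiff.2 ⟨h4, h5⟩))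
          · exact Or.inl (Or.inr (Finset.mem_sdiff.2 ⟨h4, h5⟩))
          · exact Or.inr (Finset.mem_sdiff.2 ⟨h4, h5⟩)
        · intro v hv hvX
          exact hA' v hv (Finset.sdiff_subset hvX)
        · intro v hv hvX
          exact hB' v hv (Finset.sdiff_subset hvX))
    rcases hres with ⟨P, hP1, hP2⟩ | ⟨i, hi, R, U, hWeb, hx⟩
    · left
      have havoid : ∀ e' ∈ L, List.Disjoint c (P e') := by
        intro e' he' v hv hv'
        obtain ⟨a', ha', b', hb', _, hin⟩ := hP1 e' he'
        have hvc : v ∈ c.toFinset := List.mem_toFinset.2 hv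
        rcases hin v hv' with rfl | rfl | h4
        · exact (Finset.mem_sdiff.1 ha').2 hvc
        · exact (Finset.mem_sdiff.1 hb').2 hvc
        · exact (Finset.mem_sdiff.1 h4).2 hvc
      have hne' : ∀ e' ∈ L, e' ≠ e := by
        rintro e' he' rfl
        exact heL he'
      refine ⟨fun e' => if e' = e then c else P e', ?_, ?_⟩
      · intro e' he'
        rcases List.mem_cons.1 he' with rfl | he'
        · refine ⟨a, ha, b, hb, by simpa using hpl, ?_⟩
          intro v hv
          simp only [if_true] at hv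
          subst hm
          simp at hv
          rcases hv with rfl | hv | rfl
          · exact Or.inl rfl
          · exact Or.inr (Or.inr (hC v hv))
          · exact Or.inr (Or.inl rfl)
        · obtain ⟨a', ha', b', hb', hpl', hin⟩ := hP1 e' he'
          refine ⟨a', Finset.sdiff_subset ha', b', Finset.sdiff_subset hb', ?_, ?_⟩
          · simpa [hne' e' he'] using hpl'
          · intro v hv
            simp only [hne' e' he', if_false] at hv
            rcases hin v hv with h4 | h4 | h4
            · exact Or.inl h4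
            · exact Or.inr (Or.inl h4)
            · exact Or.inr (Or.inr (Finset.sdiff_subset h4))
      · intro e' he' e'' he'' hne2
        rcases List.mem_cons.1 he' with h4 | h4 <;> rcases List.mem_cons.1 he'' with h5 | h5
        · exact absurd (h4.trans h5.symm) hne2
        · simp only [h4, if_true, hne' e'' h5, if_false]
          exact havoid e'' h5
        · simp only [h5, if_true, hne' e' h4, if_false]
          exact (havoid e' h4).symm
        · simp only [hne' e' h4, hne' e'' h5, if_false]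
          exact hP2 e' h4 e'' h5 hne2
    · right
      refine ⟨i, hi, R, U, hWeb, ?_⟩
      intro a ha
      obtain ⟨x, hx1, hx2⟩ := hx a ha
      exact ⟨x, hx1, Finset.sdiff_subset hx2⟩
  · right
    push Not at hcase
    obtain ⟨e', he', P', hsub, hlen, hbad⟩ := dich_pigeon L (4 * d * n') Pe
      (fun c e' => {r | r ∈ Rw e' ∧ List.Disjoint (dichInt c) r}.ncard < N + 2)
      (by rw [hPl, hl]; omega) hcase
    obtain ⟨hMin, hRl⟩ := hRw e' he'
    have hC' : C ⊆ C ∪ X e'.1 ∪ X e'.2 := by
      intro v hv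
      simp [hv]
    obtain ⟨R, U, hWeb, hrow⟩ := hW V G (C ∪ X e'.1 ∪ X e'.2) (X e'.1) (X e'.2)
      (Pe.map dichInt) (P'.map dichInt) (Rw e') h d (N + 2) hMin (hQ _ hC') (hsub.map _) hd
      (by rw [hRl]; exact h2) (by rw [hRl]; exact h3)
      (by rw [hRl, List.length_map]; exact hlen) (by
        intro c hc
        obtain ⟨c0, hc0, rfl⟩ := List.mem_map.1 hc
        exact hbad c0 hc0)
    have he'' := hL e' (by simp [he'])
    refine ⟨e'.1, he''.1.trans he''.2, R, U, hWeb, ?_⟩
    intro a ha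
    obtain ⟨_, x, hx, y, hy, hpl, _⟩ := hMin.1.2 _ (hrow a ha)
    exact ⟨x, hpl.head_mem, hx⟩

lemma dich_all (hW : ST_WEBX) (p h d l : ℕ) : ∃ n : ℕ, ∀ L : List (ℕ × ℕ), L.length = l →
    L.Nodup → (∀ e ∈ L, e.1 < e.2 ∧ e.2 < p) → dichP p h d L n := by
  induction l with
  | zero =>
    refine ⟨0, ?_⟩
    intro L hL _ _
    rw [List.length_eq_zero_iff] at hL
    subst hL
    intro V _ _ G C X _ _ _ _ _
    left
    exact ⟨fun _ => [], by simp, by simp⟩
  | succ l ih =>
    obtain ⟨N, hN⟩ := ih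
    refine ⟨4 * d * (max (2 * (N + 2)) (h + d * (N + 2) + 1)) * l +
      (max (2 * (N + 2)) (h + d * (N + 2) + 1)) + 1, ?_⟩
    intro L hL hnd hp
    cases L with
    | nil => simp at hL
    | cons e L =>
      rw [List.nodup_cons] at hnd
      exact dich_step hW p h d l N _ (le_max_left _ _) (le_max_right _ _) e L (by simpa using hL)
        hnd.1 hp (hN L (by simpa using hL) hnd.2 (fun e' he' => hp e' (by simp [he'])))

theorem st_DICH (h1 : ST_WEBX) : ST_DICH := by
  classical
  intro p h d
  set S : Finset (ℕ × ℕ) := (range p ×ˢ range p).filter (fun e => e.1 < e.2) with hS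
  obtain ⟨n, hn⟩ := dich_all h1 p h d S.toList.length
  refine ⟨n, ?_⟩
  intro V _ _ G C X hd hXC hXX hadj hlink
  have hmem : ∀ i j, (i, j) ∈ S.toList ↔ i < j ∧ j < p := by
    intro i j
    rw [Finset.mem_toList, hS, Finset.mem_filter, Finset.mem_product, Finset.mem_range,
      Finset.mem_range]
    constructor
    · rintro ⟨⟨_, h3⟩, h4⟩
      exact ⟨h4, h3⟩
    · rintro ⟨h3, h4⟩
      exact ⟨⟨h3.trans h4, h4⟩, h3⟩
  rcases hn S.toList rfl S.nodup_toList (fun e he => (hmem e.1 e.2).1 he) V G C X hd hXC hXX hadj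
    (fun e he => hlink e.1 e.2 ((hmem e.1 e.2).1 he).1 ((hmem e.1 e.2).1 he).2) with
    ⟨P, hP1, hP2⟩ | hweb
  · left
    refine ⟨fun i j => P (i, j), ?_, ?_⟩
    · intro i j hij hj
      exact hP1 (i, j) ((hmem i j).2 ⟨hij, hj⟩)
    · intro i j i' j' hij hj hij' hj' hne
      exact hP2 (i, j) ((hmem i j).2 ⟨hij, hj⟩) (i', j') ((hmem i' j').2 ⟨hij', hj'⟩) hne
  · exact Or.inr hweb

end Pool.Agent.Helper71.BM
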